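import Mathlib
import Pool.Agent.Run7.h17.Add5

/-!
# Sums of two integers with prescribed pairs of Liouville values, at almost all scales

For fixed forms, outside of one set of scales `X` of logarithmic density zero: let `J` be a nonempty set of the two
variables of the equation `c 0 n 0 + c 1 n 1 = N`; then for all but at most `ε X` integers `N` the conditions
`λ(a j 0 n j + b j 0) = σ j 0`, `λ(a j 1 n j + b j 1) = σ j 1` for `j ∈ J` hold for one quarter of the solutions
`n j ≤ Y j ≤ X` each, independently of each other and of an ARBITRARY weight of the other variable, up to an error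
`ε X`, uniformly in the coefficients `c j`, the cut-offs, the signs and the weights. For example almost all
`N ≤ X` have `N / 16 + o(X)` representations `N = n + m` with `λ(n) = λ(n + 1) = 1`, `λ(m) = λ(m + 1) = -1`, and if
`A` is an arbitrary set, the products `λ(N - a) λ(N - a + 1)` of consecutive values are `1` for one half of the
`a ∈ A`, `a < N`, up to `o(X)`, for almost all `N ≤ X`.

Inputs from the starting files: the two point theorem of Tao and Teravainen at almost all scales in a form with all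
linear phases (`Pool/Agent/Y842/PH`), and Davenport's theorem for `λ` (`Pool/Agent/H373R2/T7`).

From Mathlib: `ArithmeticFunction.cardFactors m` is the number of the prime factors of `m` with multiplicity;
`Finset.Icc 1 N`: the integers from `1` to `N`; `Fintype.piFinset`: the product of finite sets.
-/

set_option autoImplicit false

open Finset Filter

namespace Pool.Agent.Results.MP_a14ce1_nt.BinaryEquations

open Classical in
/-- `E` has logarithmic density zero -/
def LogDensityZero (E : Set ℕ) : Prop := Tendsto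
  (fun X : ℕ => (∑ n ∈ Icc 1 X, if n ∈ E then (1 : ℝ) / n else 0) / Real.log X) atTop (nhds 0)

/-- Liouville's function -/
def lam (n : ℕ) : ℤ := (-1) ^ ArithmeticFunction.cardFactors n

/-- `1` if `λ(a i n + b i) = σ i` for `i = 0, 1`, and `0` otherwise -/
noncomputable def pattern (a b : Fin 2 → ℕ) (σ : Fin 2 → ℤ) (n : ℕ) : ℝ :=
  if ∀ i, lam (a i * n + b i) = σ i then 1 else 0

/-- The weighted number of the solutions of `c 0 n 0 + c 1 n 1 = N` with `1 ≤ n j ≤ Y j`: the sum over the solutions
of the products `w 0 (n 0) w 1 (n 1)`. -/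
noncomputable def solutions (Y : Fin 2 → ℕ) (c : Fin 2 → ℤ) (N : ℤ) (w : Fin 2 → ℕ → ℝ) : ℝ :=
  ∑ n ∈ Fintype.piFinset (fun j => Icc 1 (Y j)), if ∑ j, c j * (n j : ℤ) = N then ∏ j, w j (n j) else 0

lemma pattern_eq (a b : Fin 2 → ℕ) (σ : Fin 2 → ℤ) (n : ℕ) :
    ((pattern a b σ n : ℝ) : ℂ) = Pool.Agent.Run7.h17.Ad.pat a b σ n := by
  have h : (∀ i, lam (a i * n + b i) = σ i) ↔ ∀ i, Pool.Agent.H376R2.MR.lam (a i * n + b i) = σ i := Iff.rfl
  unfold pattern Pool.Agent.Run7.h17.Ad.pat
  by_cases h1 : ∀ i, lam (a i * n + b i) = σ i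
  · rw [if_pos h1, if_pos (h.mp h1), Complex.ofReal_one]
  · rw [if_neg h1, if_neg (fun h2 => h1 (h.mpr h2)), Complex.ofReal_zero]

lemma solutions_eq (Y : Fin 2 → ℕ) (c : Fin 2 → ℤ) (N : ℤ) (w : Fin 2 → ℕ → ℝ) :
    ((solutions Y c N w : ℝ) : ℂ) = Pool.Agent.Run7.h17.Ad.rep Y c N (fun j n => ((w j n : ℝ) : ℂ)) := by
  unfold solutions Pool.Agent.Run7.h17.Ad.rep
  push_cast
  refine sum_congr rfl fun n _ => ?_
  split_ifs
  · push_cast
    rfl
  · simp

/-- There is one set `E` of scales of logarithmic density zero such that for all sets `J` of indices `j < 2`, all pairs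
of forms `a j 0 n + b j 0`, `a j 1 n + b j 1` (`a j i ≥ 1`) which are not proportional, and all `ε > 0` there is `K`
such that for all `X ≥ K` outside of `E`, all `Y j ≤ X`, all nonzero integers `c j`, all signs `σ j i` and all real
weights `|θ j| ≤ 1`: for all but at most `ε X` integers `N` the weighted number of the solutions of
`c 0 n 0 + c 1 n 1 = N`, `1 ≤ n j ≤ Y j`, with `λ(a j i n j + b j i) = σ j i` for `j ∈ J`, `i = 0, 1`, and with the
weights `θ j (n j)` for `j ∉ J`, differs by at most `ε X` from `(1 / 4) ^ |J|` times the number without the conditions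
on the signs. (In other words, every finite set `T` of exceptional integers `N` has at most `ε X` elements.) -/
theorem result : ∃ E : Set ℕ, LogDensityZero E ∧ ∀ (J : Finset (Fin 2)) (a b : Fin 2 → Fin 2 → ℕ) (ε : ℝ),
    0 < ε → (∀ j i, 1 ≤ a j i) → (∀ j, a j 0 * b j 1 ≠ a j 1 * b j 0) →
    ∃ K : ℕ, ∀ X : ℕ, K ≤ X → X ∉ E → ∀ (Y : Fin 2 → ℕ) (c : Fin 2 → ℤ) (σ : Fin 2 → Fin 2 → ℤ)
      (θ : Fin 2 → ℕ → ℝ), (∀ j, Y j ≤ X) → (∀ j, c j ≠ 0) → (∀ j i, σ j i = 1 ∨ σ j i = -1) →
      (∀ j n, |θ j n| ≤ 1) → ∀ T : Finset ℤ,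
      (∀ N ∈ T, ε * X < |solutions Y c N (fun j n => if j ∈ J then pattern (a j) (b j) (σ j) n else θ j n) -
        solutions Y c N (fun j n => if j ∈ J then 1 / 4 else θ j n)|) → (#T : ℝ) ≤ ε * X := by
  obtain ⟨E, hE, h1⟩ := Pool.Agent.Run7.h17.Ad.bin_E
  refine ⟨E, hE, fun J a b ε hε ha hab => ?_⟩
  obtain ⟨K, hK⟩ := h1 J a b ε hε ha hab
  refine ⟨K, fun X hX hXE Y c σ θ hY hc hσ hθ T hT => ?_⟩
  refine hK X hX hXE Y c σ (fun j n => ((θ j n : ℝ) : ℂ)) hY hc hσ (fun j n => by
    rw [Complex.norm_real]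
    exact hθ j n) T (fun N hN => ?_)
  have h2 := hT N hN
  rw [← Real.norm_eq_abs, ← Complex.norm_real, Complex.ofReal_sub, solutions_eq, solutions_eq] at h2
  refine lt_of_lt_of_le h2 (le_of_eq ?_)
  congr 2
  · congr 1
    funext j n
    by_cases hj : j ∈ J
    · rw [if_pos hj, if_pos hj, pattern_eq]
    · rw [if_neg hj, if_neg hj]
  · congr 1
    funext j n
    by_cases hj : j ∈ J
    · rw [if_pos hj, if_pos hj]
      push_cast
      rfl
    · rw [if_neg hj, if_neg hj]

end Pool.Agent.Results.MP_a14ce1_nt.BinaryEquations
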