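import Mathlib
import Pool.Agent.Run7.h581.Ex

/-!
# Products of any number of multiplicative functions, twisted by phases like `e(α n^c)`

Natural averages, at all but few dyadic scales, for every number `k` of factors, even `k` included. The
exponent `c > 1` is any rational number which is not an integer, or any real number outside a
countable set. The entropy decrement argument is carried out on short blocks, on which the phase is
almost linear with a frequency which depends on the block; for most blocks this frequency is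
approximated by a quotient with denominator prime to all small primes, simultaneously for all small
primes, by a quantitative form of Kronecker's theorem.

From the starting files: the entropy inequality `Pool.Agent.W721.ECV.dv`, the windows and the
auxiliary lemmas of `Pool.Agent.TH575.CW` and `Pool.Agent.N781.E` (`Cyc`, `Dec`, `Dec2`, `Eng`, `Light`,
`Sup`), the prime number theorem.
-/

open Finset Filter

namespace Pool.Agent.Results.MP_a14ce1_nt.FractionalPowerPhasesFewScales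

/-- Multiplicative functions with values in the closed unit disc. -/
def IsMult (f : ℕ → ℂ) : Prop :=
  (∀ n, ‖f n‖ ≤ 1) ∧ ∀ m n : ℕ, m.Coprime n → f (m * n) = f m * f n

/-- `e(x) = exp(2 π i x)`. -/
noncomputable def e (x : ℝ) : ℂ := Complex.exp (2 * Real.pi * Complex.I * x)

/-- The Liouville function. -/
def lam (n : ℕ) : ℤ := (-1) ^ ArithmeticFunction.cardFactors n

/-- The numbers `p ^ (-c)`, `p` prime, are linearly independent over the rationals. -/
def Indep (c : ℝ) : Prop := LinearIndependent ℚ (fun p : Nat.Primes => ((p : ℕ) : ℝ) ^ (-c))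

/-- `g` is the restriction to the integers of a function which has `⌊c⌋ + 1` derivatives on the positive
axis, the last one being asymptotic to `κ x ^ (c - ⌊c⌋ - 1)` for some `κ ≠ 0`. -/
def Phase (c : ℝ) (g : ℕ → ℝ) : Prop :=
  ∃ (G : ℕ → ℝ → ℝ) (κ : ℝ), κ ≠ 0 ∧ (∀ n : ℕ, g n = G 0 n) ∧
    (∀ i : ℕ, i ≤ ⌊c⌋₊ → ∀ x : ℝ, 0 < x → HasDerivAt (G i) (G (i + 1) x) x) ∧
    Tendsto (fun x : ℝ => G (⌊c⌋₊ + 1) x * x ^ ((⌊c⌋₊ : ℝ) + 1 - c)) atTop (nhds κ)

/-- The twisted correlation sum `∑_{n ≤ y} e(g(n)) ∏ j, f j |a j n + b j|`. -/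
noncomputable def corr {k : ℕ} (a : Fin k → ℕ) (b : Fin k → ℤ) (g : ℕ → ℝ)
    (f : Fin k → ℕ → ℂ) (y : ℕ) : ℂ :=
  ∑ n ∈ Icc 1 y, e (g n) * ∏ j, f j ((a j : ℤ) * n + b j).natAbs

open Classical in
/-- The exceptional scales of a sequence `X`: the `1 ≤ i ≤ J` such that `|X(y)| > ε y` for some `y`
in the dyadic interval `[N / 2 ^ (i + 1), N / 2 ^ i]`. -/
noncomputable def exc (X : ℕ → ℂ) (ε : ℝ) (J N : ℕ) : Finset ℕ :=
  (Icc 1 J).filter (fun i => ∃ y : ℕ, N / 2 ^ (i + 1) ≤ y ∧ y ≤ N / 2 ^ i ∧ ε * y < ‖X y‖)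

lemma e_eq (x : ℝ) : e x = Run7.h581.ee x := by
  unfold e Run7.h581.ee
  congr 1
  push_cast
  ring

lemma corr_eq {k : ℕ} (a : Fin k → ℕ) (b : Fin k → ℤ) (g : ℕ → ℝ) (f : Fin k → ℕ → ℂ) (y : ℕ) :
    corr a b g f y = Run7.h581.SP a b (Pool.Agent.N781.E.toZ f) (fun n => Run7.h581.ee (g n)) y := by
  unfold corr Run7.h581.SP Pool.Agent.N781.E.toZ
  apply sum_congr rfl
  intro n _
  rw [e_eq]

lemma lam_isMult : IsMult (fun n => (lam n : ℂ)) := by
  refine ⟨fun n => ?_, fun m n hmn => ?_⟩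
  · unfold lam
    push_cast
    rw [norm_pow, norm_neg, norm_one, one_pow]
  · simp only []
    unfold lam
    rcases Nat.eq_zero_or_pos m with h0 | h0
    · subst h0
      rw [Nat.coprime_zero_left] at hmn
      subst hmn
      simp
    · rcases Nat.eq_zero_or_pos n with h1 | h1
      · subst h1
        rw [Nat.coprime_zero_right] at hmn
        subst hmn
        simp
      · rw [ArithmeticFunction.cardFactors_mul h0.ne' h1.ne', pow_add]
        push_cast
        ring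

lemma one_isMult : IsMult (fun _ => 1) := ⟨fun _ => by simp, fun _ _ _ => by simp⟩

lemma sum_biUnion_le {ι : Type} [DecidableEq ι] (S : Finset ι) (B : ι → Finset ℕ) :
    ∑ i ∈ S.biUnion B, 1 / (i : ℝ) ≤ ∑ t ∈ S, ∑ i ∈ B t, 1 / (i : ℝ) := by
  induction S using Finset.induction_on with
  | empty => simp
  | insert t S ht ih =>
    rw [biUnion_insert, sum_insert ht]
    have h1 := Run7.h581.un_le (B t) (S.biUnion B)
    linarith

/-- (1) -/
theorem main (c : ℝ) (hc1 : 1 < c) (hc : ∀ n : ℕ, c ≠ n) (hind : Indep c) (k : ℕ) (hk : 0 < k)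
    (a : Fin k → ℕ) (b : Fin k → ℤ) (ha : ∀ j, 1 ≤ a j) (ε : ℝ) (hε : 0 < ε) :
    ∃ C : ℝ, ∀ g : ℕ → ℝ, Phase c g → ∀ J : ℕ, ∃ N₀ : ℕ, ∀ N : ℕ, N₀ ≤ N →
      ∀ f : Fin k → ℕ → ℂ, (∀ j, IsMult (f j)) →
      ∑ i ∈ exc (corr a b g f) ε J N, 1 / (i : ℝ) ≤ C := by
  classical
  obtain ⟨C, hC⟩ := Run7.h581.smooth_few c hc1 hc hind k hk a b ha ε hε
  refine ⟨C, fun g hg J => ?_⟩
  obtain ⟨G, κ, hκ, hgG, hG, hlim⟩ := hg
  obtain ⟨N₀, hN₀⟩ := hC G κ hκ hG hlim J
  refine ⟨N₀, fun N hN f hf => le_trans (le_of_eq ?_) (hN₀ N hN f hf)⟩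
  have h1 : exc (corr a b g f) ε J N = Pool.Agent.N781.E.exc
      (fun y => ‖Run7.h581.SP a b (Pool.Agent.N781.E.toZ f) (fun n => Run7.h581.ee (G 0 n)) y‖) ε J N := by
    ext i
    unfold exc Pool.Agent.N781.E.exc
    rw [mem_filter, mem_filter]
    simp only [corr_eq, hgG]
  rw [h1]

/-- the pattern -/
lemma pattern_eq (k : ℕ) (s : Fin k → ℤ) (hs : ∀ j, s j = 1 ∨ s j = -1) (n : ℕ) :
    (if ∀ j : Fin k, lam (n + j) = s j then (1 : ℂ) else 0) =
      (1 / 2 ^ k) * ∑ A : Finset (Fin k), (∏ j ∈ A, (s j : ℂ)) * ∏ j ∈ A, (lam (n + j) : ℂ) := by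
  have h1 : ∀ j : Fin k, (if lam (n + j) = s j then (1 : ℂ) else 0) = (1 / 2) * (1 + (s j : ℂ) * (lam (n + j) : ℂ)) := by
    intro j
    have h2 : lam (n + j) = 1 ∨ lam (n + j) = -1 := neg_one_pow_eq_or ℤ _
    rcases hs j with h3 | h3 <;> rcases h2 with h4 | h4 <;> rw [h3, h4] <;> norm_num
  have h2 : (if ∀ j : Fin k, lam (n + j) = s j then (1 : ℂ) else 0) =
      ∏ j : Fin k, (if lam (n + j) = s j then (1 : ℂ) else 0) := by
    by_cases h : ∀ j : Fin k, lam (n + j) = s j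
    · rw [if_pos h, prod_eq_one]
      intro j _
      rw [if_pos (h j)]
    · rw [if_neg h]
      push Not at h
      obtain ⟨j, hj⟩ := h
      symm
      apply prod_eq_zero (mem_univ j)
      rw [if_neg hj]
  rw [h2, prod_congr rfl fun j _ => h1 j, prod_mul_distrib, prod_const, card_univ, Fintype.card_fin,
    prod_one_add]
  congr 1
  · rw [one_div, one_div, inv_pow]
  · rw [powerset_univ]
    apply sum_congr rfl
    intro A _
    rw [prod_mul_distrib]

/-- (2) -/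
theorem liouville (c : ℝ) (hc1 : 1 < c) (hc : ∀ n : ℕ, c ≠ n) (hind : Indep c) (k : ℕ) (hk : 0 < k)
    (ε : ℝ) (hε : 0 < ε) :
    ∃ C : ℝ, ∀ g : ℕ → ℝ, Phase c g → ∀ J : ℕ, ∃ N₀ : ℕ, ∀ N : ℕ, N₀ ≤ N →
      ∑ i ∈ exc (fun y => ∑ n ∈ Icc 1 y, e (g n) * ∏ j ∈ range k, (lam (n + j) : ℂ)) ε J N,
        1 / (i : ℝ) ≤ C := by
  obtain ⟨C, hC⟩ := main c hc1 hc hind k hk (fun _ => 1) (fun j => (j : ℤ)) (fun _ => le_rfl) ε hε
  refine ⟨C, fun g hg J => ?_⟩
  obtain ⟨N₀, hN₀⟩ := hC g hg J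
  refine ⟨N₀, fun N hN => le_trans (le_of_eq ?_) (hN₀ N hN (fun _ n => (lam n : ℂ)) fun _ => lam_isMult)⟩
  congr 2
  funext y
  unfold corr
  apply sum_congr rfl
  intro n _
  rw [← Fin.prod_univ_eq_prod_range]
  congr 1
  apply prod_congr rfl
  intro j _
  congr 2
  simp only [Nat.cast_one, one_mul]
  omega

/-- (3) -/
theorem patterns (c : ℝ) (hc1 : 1 < c) (hc : ∀ n : ℕ, c ≠ n) (hind : Indep c) (k : ℕ) (hk : 0 < k)
    (ε : ℝ) (hε : 0 < ε) (s : Fin k → ℤ) (hs : ∀ j, s j = 1 ∨ s j = -1) :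
    ∃ C : ℝ, ∀ g : ℕ → ℝ, Phase c g → ∀ J : ℕ, ∃ N₀ : ℕ, ∀ N : ℕ, N₀ ≤ N →
      ∑ i ∈ exc (fun y => ∑ n ∈ (Icc 1 y).filter (fun n => ∀ j : Fin k, lam (n + j) = s j),
        e (g n)) ε J N, 1 / (i : ℝ) ≤ C := by
  classical
  obtain ⟨C, hC⟩ := main c hc1 hc hind k hk (fun _ => 1) (fun j => (j : ℤ)) (fun _ => le_rfl) ε hε
  refine ⟨(2 ^ k : ℕ) * C, fun g hg J => ?_⟩
  obtain ⟨N₀, hN₀⟩ := hC g hg J
  refine ⟨N₀, fun N hN => ?_⟩
  set F : Finset (Fin k) → Fin k → ℕ → ℂ := fun A j n => if j ∈ A then (lam n : ℂ) else 1 with hF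
  have hFm : ∀ A j, IsMult (F A j) := by
    intro A j
    simp only [hF]
    split_ifs
    · exact lam_isMult
    · exact one_isMult
  set X : ℕ → ℂ := fun y => ∑ n ∈ (Icc 1 y).filter (fun n => ∀ j : Fin k, lam (n + j) = s j),
    e (g n) with hX
  have hXe : ∀ y, X y = (1 / 2 ^ k) * ∑ A : Finset (Fin k), (∏ j ∈ A, (s j : ℂ)) *
      corr (fun _ => 1) (fun j => (j : ℤ)) g (F A) y := by
    intro y
    simp only [hX]
    rw [sum_filter]
    unfold corr
    simp only [mul_sum]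
    rw [sum_comm]
    apply sum_congr rfl
    intro n _
    have h1 : (if ∀ j : Fin k, lam (n + j) = s j then e (g n) else 0) =
        e (g n) * (if ∀ j : Fin k, lam (n + j) = s j then (1 : ℂ) else 0) := by
      split_ifs <;> simp
    rw [h1, pattern_eq k s hs, mul_sum, mul_sum]
    apply sum_congr rfl
    intro A _
    have h2 : ∏ j ∈ A, (lam (n + j) : ℂ) =
        ∏ j : Fin k, F A j (((1 : ℕ) : ℤ) * n + (j : ℤ)).natAbs := by
      simp only [hF]
      rw [prod_ite_mem, univ_inter]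
      apply prod_congr rfl
      intro j _
      congr 2
      omega
    rw [h2]
    ring
  have hsub : exc X ε J N ⊆ (univ : Finset (Finset (Fin k))).biUnion
      (fun A => exc (corr (fun _ => 1) (fun j => (j : ℤ)) g (F A)) ε J N) := by
    intro i hi
    by_contra hcon
    rw [mem_biUnion] at hcon
    push Not at hcon
    unfold exc at hi
    rw [mem_filter] at hi
    obtain ⟨hiJ, y, hy1, hy2, hy3⟩ := hi
    have h1 : ∀ A : Finset (Fin k), ‖corr (fun _ => 1) (fun j => (j : ℤ)) g (F A) y‖ ≤ ε * y := by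
      intro A
      by_contra h2
      push Not at h2
      apply hcon A (mem_univ A)
      unfold exc
      rw [mem_filter]
      exact ⟨hiJ, y, hy1, hy2, h2⟩
    have h2 : ‖X y‖ ≤ ε * y := by
      rw [hXe, norm_mul]
      have h3 : ‖∑ A : Finset (Fin k), (∏ j ∈ A, (s j : ℂ)) *
          corr (fun _ => 1) (fun j => (j : ℤ)) g (F A) y‖ ≤ 2 ^ k * (ε * y) := by
        refine (norm_sum_le _ _).trans ?_
        have h4 : ∀ A ∈ (univ : Finset (Finset (Fin k))), ‖(∏ j ∈ A, (s j : ℂ)) *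
            corr (fun _ => 1) (fun j => (j : ℤ)) g (F A) y‖ ≤ ε * y := by
          intro A _
          rw [norm_mul, norm_prod, prod_eq_one, one_mul]
          · exact h1 A
          · intro j _
            rcases hs j with h5 | h5 <;> rw [h5] <;> simp
        refine (sum_le_sum h4).trans (le_of_eq ?_)
        rw [sum_const, card_univ, Fintype.card_finset, Fintype.card_fin, nsmul_eq_mul]
        push_cast
        ring
      have h4 : ‖(1 / 2 ^ k : ℂ)‖ = 1 / 2 ^ k := by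
        rw [norm_div, norm_pow]
        norm_num
      rw [h4]
      have h5 : (0 : ℝ) < 2 ^ k := by positivity
      calc (1 : ℝ) / 2 ^ k * _ ≤ 1 / 2 ^ k * (2 ^ k * (ε * y)) :=
            mul_le_mul_of_nonneg_left h3 (by positivity)
        _ = ε * y := by field_simp
    linarith
  refine (Run7.h581.mono_le hsub).trans ?_
  refine (sum_biUnion_le _ _).trans ?_
  refine (sum_le_sum fun A _ => hN₀ N hN (F A) (hFm A)).trans (le_of_eq ?_)
  rw [sum_const, card_univ, Fintype.card_finset, Fintype.card_fin, nsmul_eq_mul]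

/-- sums of powers -/
theorem powers (c : ℝ) (hc : ∀ n : ℕ, c ≠ n) (α0 : ℝ) (h0 : α0 ≠ 0) (r : ℕ) (α c' : Fin r → ℝ)
    (hlt : ∀ j, c' j < c) : Phase c (fun n : ℕ => α0 * (n : ℝ) ^ c + ∑ j, α j * (n : ℝ) ^ (c' j)) := by
  obtain ⟨G, κ, hκ, hG0, hG, hlim⟩ := Run7.h581.powers_tower c ⌊c⌋₊ hc α0 h0 r α c' hlt
  exact ⟨G, κ, hκ, fun n => (hG0 n).symm, fun i _ x hx => hG i x hx, hlim⟩

/-- **The theorem.** (A) Let `c > 1` be a real number which is not an integer and for which the numbers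
`p ^ (-c)`, `p` prime, are linearly independent over the rationals. Let `ε > 0` and `k ≥ 1`. Let `g` be
a phase of order `c`: the restriction to the integers of a function with `⌊c⌋ + 1` derivatives on the
positive axis, the last one asymptotic to `κ x ^ (c - ⌊c⌋ - 1)`, `κ ≠ 0`.

(1) For all integers `a_j ≥ 1`, `b_j` there is `C`, the same for all such `g`, such that for every `J` and
all large `N`, simultaneously for all multiplicative functions `f_1, …, f_k` with values in the unit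
disc, the `i ≤ J` for which `|∑_{n ≤ y} e(g(n)) ∏ f_j(|a_j n + b_j|)| > ε y` for some `y` in
`[N / 2 ^ (i + 1), N / 2 ^ i]` satisfy `∑ 1 / i ≤ C`.

(2) The same for the sums `∑_{n ≤ y} e(g(n)) λ(n) λ(n + 1) ⋯ λ(n + k - 1)`.

(3) The same for the sums of `e(g(n))` over the `n ≤ y` at which the Liouville function has a given
pattern of `k` consecutive signs.

(B) The condition on `c` holds for every rational `c` which is not an integer.

(C) It holds for all but countably many real `c`.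

(D) The functions `α_0 n ^ c + ∑ α_j n ^ (c_j)`, `α_0 ≠ 0`, `c_j < c`, are phases of order `c`; in particular
`α_0 n ^ c + Q(n)` with a real polynomial `Q` of degree less than `c`. -/
theorem result :
    (∀ c : ℝ, 1 < c → (∀ n : ℕ, c ≠ n) → Indep c → ∀ ε : ℝ, 0 < ε → ∀ k : ℕ, 0 < k →
      (∀ (a : Fin k → ℕ) (b : Fin k → ℤ), (∀ j, 1 ≤ a j) →
        ∃ C : ℝ, ∀ g : ℕ → ℝ, Phase c g → ∀ J : ℕ, ∃ N₀ : ℕ, ∀ N : ℕ, N₀ ≤ N →
          ∀ f : Fin k → ℕ → ℂ, (∀ j, IsMult (f j)) →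
          ∑ i ∈ exc (corr a b g f) ε J N, 1 / (i : ℝ) ≤ C) ∧
      (∃ C : ℝ, ∀ g : ℕ → ℝ, Phase c g → ∀ J : ℕ, ∃ N₀ : ℕ, ∀ N : ℕ, N₀ ≤ N →
        ∑ i ∈ exc (fun y => ∑ n ∈ Icc 1 y, e (g n) * ∏ j ∈ range k, (lam (n + j) : ℂ)) ε J N,
          1 / (i : ℝ) ≤ C) ∧
      (∀ s : Fin k → ℤ, (∀ j, s j = 1 ∨ s j = -1) →
        ∃ C : ℝ, ∀ g : ℕ → ℝ, Phase c g → ∀ J : ℕ, ∃ N₀ : ℕ, ∀ N : ℕ, N₀ ≤ N →
          ∑ i ∈ exc (fun y => ∑ n ∈ (Icc 1 y).filter (fun n => ∀ j : Fin k, lam (n + j) = s j),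
            e (g n)) ε J N, 1 / (i : ℝ) ≤ C)) ∧
    (∀ c : ℚ, c.den ≠ 1 → Indep (c : ℝ)) ∧
    {c : ℝ | ¬ Indep c}.Countable ∧
    (∀ c : ℝ, (∀ n : ℕ, c ≠ n) → ∀ α0 : ℝ, α0 ≠ 0 → ∀ (r : ℕ) (α c' : Fin r → ℝ), (∀ j, c' j < c) →
      Phase c (fun n : ℕ => α0 * (n : ℝ) ^ c + ∑ j, α j * (n : ℝ) ^ (c' j))) :=
  ⟨fun c hc1 hc hind ε hε k hk => ⟨fun a b ha => main c hc1 hc hind k hk a b ha ε hε,
    liouville c hc1 hc hind k hk ε hε, fun s hs => patterns c hc1 hc hind k hk ε hε s hs⟩,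
    Run7.h581.indep_rat, Run7.h581.indep_countable,
    fun c hc α0 h0 r α c' hlt => powers c hc α0 h0 r α c' hlt⟩

end Pool.Agent.Results.MP_a14ce1_nt.FractionalPowerPhasesFewScales
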