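import Mathlib
import Pool.Agent.Run7.h581.Poly2

/-!
# Products of any number of multiplicative functions, twisted by irrational polynomial phases

Natural averages, at all but few dyadic scales, for every number `k` of factors, even `k` included.
The entropy decrement argument is carried out conditionally on the residue of `n` modulo an integer
`V` of the size of a small multiple of the length of the sum which is prime to all small primes and
for which `u / V` is very close to the frequency.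

From the starting files: the entropy inequality `Pool.Agent.W721.ECV.dv`, the windows and the
auxiliary lemmas of `Pool.Agent.TH575.CW` and `Pool.Agent.N781.E` (`Cyc`, `Dec`, `Dec2`, `Eng`, `Light`,
`Sup`), the prime number theorem.
-/

open Finset

namespace Pool.Agent.Results.MP_a14ce1_nt.PolynomialPhasesFewScales

/-- Multiplicative functions with values in the closed unit disc. -/
def IsMult (f : ℕ → ℂ) : Prop :=
  (∀ n, ‖f n‖ ≤ 1) ∧ ∀ m n : ℕ, m.Coprime n → f (m * n) = f m * f n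

/-- `e(x) = exp(2 π i x)`. -/
noncomputable def e (x : ℝ) : ℂ := Complex.exp (2 * Real.pi * Complex.I * x)

/-- The Liouville function. -/
def lam (n : ℕ) : ℤ := (-1) ^ ArithmeticFunction.cardFactors n

/-- The twisted correlation sum `∑_{n ≤ y} e(P(n)) ∏ j, f j |a j n + b j|`. -/
noncomputable def corr {k : ℕ} (a : Fin k → ℕ) (b : Fin k → ℤ) (P : Polynomial ℝ)
    (f : Fin k → ℕ → ℂ) (y : ℕ) : ℂ :=
  ∑ n ∈ Icc 1 y, e (P.eval (n : ℝ)) * ∏ j, f j ((a j : ℤ) * n + b j).natAbs

open Classical in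
/-- The exceptional scales of a sequence `X`: the `1 ≤ i ≤ J` such that `|X(y)| > ε y` for some `y`
in the dyadic interval `[N / 2 ^ (i + 1), N / 2 ^ i]`. -/
noncomputable def exc (X : ℕ → ℂ) (ε : ℝ) (J N : ℕ) : Finset ℕ :=
  (Icc 1 J).filter (fun i => ∃ y : ℕ, N / 2 ^ (i + 1) ≤ y ∧ y ≤ N / 2 ^ i ∧ ε * y < ‖X y‖)

lemma e_eq (x : ℝ) : e x = Run7.h581.ee x := by
  unfold e Run7.h581.ee
  congr 1
  push_cast
  ring

lemma corr_eq {k : ℕ} (a : Fin k → ℕ) (b : Fin k → ℤ) (P : Polynomial ℝ) (f : Fin k → ℕ → ℂ) (y : ℕ) :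
    corr a b P f y = Run7.h581.cs a b (fun m => P.eval (m : ℝ)) f y := by
  unfold corr Run7.h581.cs Run7.h581.SP Pool.Agent.N781.E.toZ
  apply sum_congr rfl
  intro n _
  rw [e_eq]

lemma lam_isMult : IsMult (fun n => (lam n : ℂ)) := by
  refine ⟨fun n => ?_, fun m n hmn => ?_⟩
  · unfold lam
    push_cast
    rw [norm_pow, norm_neg, norm_one, one_pow]
  · simp only []
    unfold lam
    rcases Nat.eq_zero_or_pos m with h0 | h0
    · subst h0
      rw [Nat.coprime_zero_left] at hmn
      subst hmn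
      simp
    · rcases Nat.eq_zero_or_pos n with h1 | h1
      · subst h1
        rw [Nat.coprime_zero_right] at hmn
        subst hmn
        simp
      · rw [ArithmeticFunction.cardFactors_mul h0.ne' h1.ne', pow_add]
        push_cast
        ring

lemma one_isMult : IsMult (fun _ => 1) := ⟨fun _ => by simp, fun _ _ _ => by simp⟩

lemma sum_biUnion_le {ι : Type} [DecidableEq ι] (S : Finset ι) (B : ι → Finset ℕ) :
    ∑ i ∈ S.biUnion B, 1 / (i : ℝ) ≤ ∑ t ∈ S, ∑ i ∈ B t, 1 / (i : ℝ) := by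
  induction S using Finset.induction_on with
  | empty => simp
  | insert t S ht ih =>
    rw [biUnion_insert, sum_insert ht]
    have h1 := Run7.h581.un_le (B t) (S.biUnion B)
    linarith

/-- (1) -/
theorem main (k : ℕ) (hk : 0 < k) (a : Fin k → ℕ) (b : Fin k → ℤ) (ha : ∀ j, 1 ≤ a j)
    (P : Polynomial ℝ) (hP : ∃ d, 1 ≤ d ∧ Irrational (P.coeff d)) (ε : ℝ) (hε : 0 < ε) :
    ∃ C : ℝ, ∀ J : ℕ, ∃ N₀ : ℕ, ∀ N : ℕ, N₀ ≤ N → ∀ f : Fin k → ℕ → ℂ, (∀ j, IsMult (f j)) →
      ∑ i ∈ exc (corr a b P f) ε J N, 1 / (i : ℝ) ≤ C := by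
  classical
  obtain ⟨C, hC⟩ := Run7.h581.whole k hk a b ha (fun m => P.eval (m : ℝ))
    (Run7.h581.poly_irr2 P.natDegree P le_rfl hP) ε hε
  refine ⟨C, fun J => ?_⟩
  obtain ⟨N₀, hN₀⟩ := hC J
  refine ⟨N₀, fun N hN f hf => le_trans (le_of_eq ?_) (hN₀ N hN f hf)⟩
  have h1 : exc (corr a b P f) ε J N = Pool.Agent.N781.E.exc
      (fun y => ‖Run7.h581.cs a b (fun m => P.eval (m : ℝ)) f y‖) ε J N := by
    ext i
    unfold exc Pool.Agent.N781.E.exc
    rw [mem_filter, mem_filter]
    simp only [corr_eq]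
  rw [h1]

/-- the pattern -/
lemma pattern_eq (k : ℕ) (s : Fin k → ℤ) (hs : ∀ j, s j = 1 ∨ s j = -1) (n : ℕ) :
    (if ∀ j : Fin k, lam (n + j) = s j then (1 : ℂ) else 0) =
      (1 / 2 ^ k) * ∑ A : Finset (Fin k), (∏ j ∈ A, (s j : ℂ)) * ∏ j ∈ A, (lam (n + j) : ℂ) := by
  have h1 : ∀ j : Fin k, (if lam (n + j) = s j then (1 : ℂ) else 0) = (1 / 2) * (1 + (s j : ℂ) * (lam (n + j) : ℂ)) := by
    intro j
    have h2 : lam (n + j) = 1 ∨ lam (n + j) = -1 := neg_one_pow_eq_or ℤ _
    rcases hs j with h3 | h3 <;> rcases h2 with h4 | h4 <;> rw [h3, h4] <;> norm_num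
  have h2 : (if ∀ j : Fin k, lam (n + j) = s j then (1 : ℂ) else 0) =
      ∏ j : Fin k, (if lam (n + j) = s j then (1 : ℂ) else 0) := by
    by_cases h : ∀ j : Fin k, lam (n + j) = s j
    · rw [if_pos h, prod_eq_one]
      intro j _
      rw [if_pos (h j)]
    · rw [if_neg h]
      push Not at h
      obtain ⟨j, hj⟩ := h
      symm
      apply prod_eq_zero (mem_univ j)
      rw [if_neg hj]
  rw [h2, prod_congr rfl fun j _ => h1 j, prod_mul_distrib, prod_const, card_univ, Fintype.card_fin,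
    prod_one_add]
  congr 1
  · rw [one_div, one_div, inv_pow]
  · rw [powerset_univ]
    apply sum_congr rfl
    intro A _
    rw [prod_mul_distrib]

/-- **The theorem.** Let `P` be a real polynomial with an irrational coefficient of positive degree, and
let `ε > 0`.

(1) Let `k ≥ 1`, and let `a_j ≥ 1`, `b_j` be integers. There is `C` such that for every `J` and all large
`N`, simultaneously for all multiplicative functions `f_1, …, f_k` with values in the unit disc, the
`i ≤ J` for which `|∑_{n ≤ y} e(P(n)) ∏ f_j(|a_j n + b_j|)| > ε y` for some `y` in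
`[N / 2 ^ (i + 1), N / 2 ^ i]` satisfy `∑ 1 / i ≤ C`.

(2) The same for the sums `∑_{n ≤ y} e(P(n)) λ(n) λ(n + 1) ⋯ λ(n + k - 1)`.

(3) The same for the sums of `e(P(n))` over the `n ≤ y` at which the Liouville function has a given
pattern of `k` consecutive signs. -/
theorem result (P : Polynomial ℝ) (hP : ∃ d, 1 ≤ d ∧ Irrational (P.coeff d)) (ε : ℝ) (hε : 0 < ε)
    (k : ℕ) (hk : 0 < k) :
    (∀ (a : Fin k → ℕ) (b : Fin k → ℤ), (∀ j, 1 ≤ a j) →
      ∃ C : ℝ, ∀ J : ℕ, ∃ N₀ : ℕ, ∀ N : ℕ, N₀ ≤ N → ∀ f : Fin k → ℕ → ℂ, (∀ j, IsMult (f j)) →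
        ∑ i ∈ exc (corr a b P f) ε J N, 1 / (i : ℝ) ≤ C) ∧
    (∃ C : ℝ, ∀ J : ℕ, ∃ N₀ : ℕ, ∀ N : ℕ, N₀ ≤ N →
      ∑ i ∈ exc (fun y => ∑ n ∈ Icc 1 y, e (P.eval (n : ℝ)) * ∏ j ∈ range k, (lam (n + j) : ℂ)) ε J N,
        1 / (i : ℝ) ≤ C) ∧
    (∀ s : Fin k → ℤ, (∀ j, s j = 1 ∨ s j = -1) →
      ∃ C : ℝ, ∀ J : ℕ, ∃ N₀ : ℕ, ∀ N : ℕ, N₀ ≤ N →
        ∑ i ∈ exc (fun y => ∑ n ∈ (Icc 1 y).filter (fun n => ∀ j : Fin k, lam (n + j) = s j),
          e (P.eval (n : ℝ))) ε J N, 1 / (i : ℝ) ≤ C) := by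
  classical
  refine ⟨fun a b ha => main k hk a b ha P hP ε hε, ?_, ?_⟩
  · obtain ⟨C, hC⟩ := main k hk (fun _ => 1) (fun j => (j : ℤ)) (fun _ => le_rfl) P hP ε hε
    refine ⟨C, fun J => ?_⟩
    obtain ⟨N₀, hN₀⟩ := hC J
    refine ⟨N₀, fun N hN => le_trans (le_of_eq ?_) (hN₀ N hN (fun _ n => (lam n : ℂ)) fun _ => lam_isMult)⟩
    congr 2
    funext y
    unfold corr
    apply sum_congr rfl
    intro n _
    rw [← Fin.prod_univ_eq_prod_range]
    congr 1
    apply prod_congr rfl
    intro j _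
    congr 2
    simp only [Nat.cast_one, one_mul]
    omega
  · intro s hs
    obtain ⟨C, hC⟩ := main k hk (fun _ => 1) (fun j => (j : ℤ)) (fun _ => le_rfl) P hP ε hε
    refine ⟨(2 ^ k : ℕ) * C, fun J => ?_⟩
    obtain ⟨N₀, hN₀⟩ := hC J
    refine ⟨N₀, fun N hN => ?_⟩
    set F : Finset (Fin k) → Fin k → ℕ → ℂ := fun A j n => if j ∈ A then (lam n : ℂ) else 1 with hF
    have hFm : ∀ A j, IsMult (F A j) := by
      intro A j
      simp only [hF]
      split_ifs
      · exact lam_isMult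
      · exact one_isMult
    set X : ℕ → ℂ := fun y => ∑ n ∈ (Icc 1 y).filter (fun n => ∀ j : Fin k, lam (n + j) = s j),
      e (P.eval (n : ℝ)) with hX
    have hXe : ∀ y, X y = (1 / 2 ^ k) * ∑ A : Finset (Fin k), (∏ j ∈ A, (s j : ℂ)) *
        corr (fun _ => 1) (fun j => (j : ℤ)) P (F A) y := by
      intro y
      simp only [hX]
      rw [sum_filter]
      unfold corr
      simp only [mul_sum]
      rw [sum_comm]
      apply sum_congr rfl
      intro n _
      have h1 : (if ∀ j : Fin k, lam (n + j) = s j then e (P.eval (n : ℝ)) else 0) =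
          e (P.eval (n : ℝ)) * (if ∀ j : Fin k, lam (n + j) = s j then (1 : ℂ) else 0) := by
        split_ifs <;> simp
      rw [h1, pattern_eq k s hs, mul_sum, mul_sum]
      apply sum_congr rfl
      intro A _
      have h2 : ∏ j ∈ A, (lam (n + j) : ℂ) =
          ∏ j : Fin k, F A j (((1 : ℕ) : ℤ) * n + (j : ℤ)).natAbs := by
        simp only [hF]
        rw [prod_ite_mem, univ_inter]
        apply prod_congr rfl
        intro j _
        congr 2
        omega
      rw [h2]
      ring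
    have hsub : exc X ε J N ⊆ (univ : Finset (Finset (Fin k))).biUnion
        (fun A => exc (corr (fun _ => 1) (fun j => (j : ℤ)) P (F A)) ε J N) := by
      intro i hi
      by_contra hcon
      rw [mem_biUnion] at hcon
      push Not at hcon
      unfold exc at hi
      rw [mem_filter] at hi
      obtain ⟨hiJ, y, hy1, hy2, hy3⟩ := hi
      have h1 : ∀ A : Finset (Fin k), ‖corr (fun _ => 1) (fun j => (j : ℤ)) P (F A) y‖ ≤ ε * y := by
        intro A
        by_contra h2
        push Not at h2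
        apply hcon A (mem_univ A)
        unfold exc
        rw [mem_filter]
        exact ⟨hiJ, y, hy1, hy2, h2⟩
      have h2 : ‖X y‖ ≤ ε * y := by
        rw [hXe, norm_mul]
        have h3 : ‖∑ A : Finset (Fin k), (∏ j ∈ A, (s j : ℂ)) *
            corr (fun _ => 1) (fun j => (j : ℤ)) P (F A) y‖ ≤ 2 ^ k * (ε * y) := by
          refine (norm_sum_le _ _).trans ?_
          have h4 : ∀ A ∈ (univ : Finset (Finset (Fin k))), ‖(∏ j ∈ A, (s j : ℂ)) *
              corr (fun _ => 1) (fun j => (j : ℤ)) P (F A) y‖ ≤ ε * y := by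
            intro A _
            rw [norm_mul, norm_prod, prod_eq_one, one_mul]
            · exact h1 A
            · intro j _
              rcases hs j with h5 | h5 <;> rw [h5] <;> simp
          refine (sum_le_sum h4).trans (le_of_eq ?_)
          rw [sum_const, card_univ, Fintype.card_finset, Fintype.card_fin, nsmul_eq_mul]
          push_cast
          ring
        have h4 : ‖(1 / 2 ^ k : ℂ)‖ = 1 / 2 ^ k := by
          rw [norm_div, norm_pow]
          norm_num
        rw [h4]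
        have h5 : (0 : ℝ) < 2 ^ k := by positivity
        calc (1 : ℝ) / 2 ^ k * _ ≤ 1 / 2 ^ k * (2 ^ k * (ε * y)) :=
              mul_le_mul_of_nonneg_left h3 (by positivity)
          _ = ε * y := by field_simp
      linarith
    refine (Run7.h581.mono_le hsub).trans ?_
    refine (sum_biUnion_le _ _).trans ?_
    refine (sum_le_sum fun A _ => hN₀ N hN (F A) (hFm A)).trans (le_of_eq ?_)
    rw [sum_const, card_univ, Fintype.card_finset, Fintype.card_fin, nsmul_eq_mul]

end Pool.Agent.Results.MP_a14ce1_nt.PolynomialPhasesFewScales
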