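import Mathlib
import Pool.Agent.Run7.h17.Osc

/-!
# Products of any number of multiplicative functions with oscillating phases, in progressions to large moduli

For every number `k` of factors (even `k` included), for polynomial phases with an irrational coefficient and for
phases like `α n ^ c`, at almost all scales `N`, in almost all classes of almost all moduli `q = o(N)`, and for
all but boundedly many pairwise coprime moduli `q ≤ √N`.

Inputs: the theorems of helper581 of this run for `q = 1` (`Pool.Agent.Run7.h581.Poly2`, `Pool.Agent.Run7.h581.Ex`), used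
along progressions with bounded moduli; the theorem of Barban-Davenport-Halberstam type for arbitrary bounded functions
`Pool.Agent.Run7.h17.BDH4` and the large sieve for pairwise coprime moduli (`Pool.Agent.Run7.h17.Coprime`).
-/

set_option autoImplicit false

open Finset Filter

namespace Pool.Agent.Results.MP_a14ce1_nt.TwistedLargeModuli

open Classical in
/-- `E` has logarithmic density zero -/
def LogDensityZero (E : Set ℕ) : Prop := Tendsto
  (fun X : ℕ => (∑ n ∈ Icc 1 X, if n ∈ E then (1 : ℝ) / n else 0) / Real.log X) atTop (nhds 0)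

/-- Multiplicative functions with values in the closed unit disc. -/
def IsMult (f : ℕ → ℂ) : Prop :=
  (∀ n, ‖f n‖ ≤ 1) ∧ ∀ m n : ℕ, m.Coprime n → f (m * n) = f m * f n

/-- `e(x) = exp(2 π i x)`. -/
noncomputable def e (x : ℝ) : ℂ := Complex.exp (2 * Real.pi * Complex.I * x)

/-- The numbers `p ^ (-c)`, `p` prime, are linearly independent over the rationals. (This is so for all rational `c`
which are not integers and for all but countably many real `c`, see `MP_a14ce1_nt.FractionalPowerPhasesFewScales`.) -/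
def Indep (c : ℝ) : Prop := LinearIndependent ℚ (fun p : Nat.Primes => ((p : ℕ) : ℝ) ^ (-c))

/-- `g` is the restriction to the integers of a function which has `⌊c⌋ + 1` derivatives on the positive
axis, the last one being asymptotic to `κ x ^ (c - ⌊c⌋ - 1)` for some `κ ≠ 0`. -/
def Phase (c : ℝ) (g : ℕ → ℝ) : Prop :=
  ∃ (G : ℕ → ℝ → ℝ) (κ : ℝ), κ ≠ 0 ∧ (∀ n : ℕ, g n = G 0 n) ∧
    (∀ i : ℕ, i ≤ ⌊c⌋₊ → ∀ x : ℝ, 0 < x → HasDerivAt (G i) (G (i + 1) x) x) ∧
    Tendsto (fun x : ℝ => G (⌊c⌋₊ + 1) x * x ^ ((⌊c⌋₊ : ℝ) + 1 - c)) atTop (nhds κ)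

/-- The phases: real polynomials with an irrational coefficient of positive degree, and the phases of an order
`c > 1` which is not an integer and satisfies `Indep c`. -/
def Oscillating (g : ℕ → ℝ) : Prop :=
  (∃ P : Polynomial ℝ, (∃ d, 1 ≤ d ∧ Irrational (P.coeff d)) ∧ ∀ n : ℕ, g n = P.eval (n : ℝ)) ∨
    ∃ c : ℝ, 1 < c ∧ (∀ n : ℕ, c ≠ n) ∧ Indep c ∧ Phase c g

/-- The sum of `e(g(n)) ∏ j, f j |a j n + b j|` over the `n ≤ y` in the class of `c` modulo `q`. -/
noncomputable def classSum {k : ℕ} (g : ℕ → ℝ) (a : Fin k → ℕ) (b : Fin k → ℤ) (f : Fin k → ℕ → ℂ) (q c y : ℕ) : ℂ :=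
  ∑ n ∈ (Icc 1 y).filter (fun n => n % q = c), e (g n) * ∏ j, f j ((a j : ℤ) * n + b j).natAbs

lemma e_eq (x : ℝ) : e x = Run7.h581.ee x := by
  unfold e Run7.h581.ee
  congr 1
  push_cast
  ring

lemma classSum_eq {k : ℕ} (g : ℕ → ℝ) (a : Fin k → ℕ) (b : Fin k → ℤ) (f : Fin k → ℕ → ℂ) (q c y : ℕ) :
    classSum g a b f q c y = Pool.Agent.Run7.h17.BDH.cs (Pool.Agent.Run7.h17.Os.FO g a b f) q c y := by
  unfold classSum Pool.Agent.Run7.h17.BDH.cs Pool.Agent.Run7.h17.Os.FO
  rw [sum_filter]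
  refine sum_congr rfl fun n _ => ?_
  rw [e_eq]

lemma osc_few (g : ℕ → ℝ) (hg : Oscillating g) : Pool.Agent.Run7.h17.Os.FewAP g := by
  rcases hg with ⟨P, hP, hgP⟩ | ⟨c, hc1, hc, hind, G, κ, hκ, hgG, hG, hlim⟩
  · have : g = fun n : ℕ => P.eval (n : ℝ) := funext hgP
    rw [this]
    exact Pool.Agent.Run7.h17.Os.poly_few P hP
  · have : g = fun n : ℕ => G 0 n := funext hgG
    rw [this]
    exact Pool.Agent.Run7.h17.Os.smooth_few c hc1 hc hind G κ hκ hG hlim

/-- Let `g` be an oscillating phase and let `f 0, f 1, ...` be a sequence of multiplicative functions with values in the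
closed unit disc. There is one set `E` of scales of logarithmic density zero such that for all `k ≥ 1`, all forms
`a j n + b j` (`j < k`) with integers `a j ≥ 1`, `b j`, all choices `f (ν j)` of `k` functions of the sequence and all
`ε > 0` there is `K` such that for all `N ≥ K` outside of `E` and all `Q ≤ N / K` the following holds.

(1) For all cut-offs `Y q c ≤ N` the sum over the moduli `q ≤ Q` and over the classes `c` modulo `q` of the absolute
values of the sums over `n ≤ Y q c`, `n ≡ c` modulo `q`, of `e(g(n)) ∏ j, f (ν j) |a j n + b j|` is at most `ε Q N`.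

(2) A set of pairwise coprime moduli `q ≤ Q` for which, with suitable cut-offs, the sum over the classes `c`
of these absolute values is larger than `ε N`, has at most `K (1 + Q ^ 2 / N)` members.

For example `f (ν j) = λ`, `a j = 1`, `b j = j`: the products `λ(n) λ(n + 1) ⋯ λ(n + k - 1)`. -/
theorem result (g : ℕ → ℝ) (hg : Oscillating g) (f : ℕ → ℕ → ℂ) (hf : ∀ m, IsMult (f m)) :
    ∃ E : Set ℕ, LogDensityZero E ∧ ∀ (k : ℕ) (a : Fin k → ℕ) (b : Fin k → ℤ) (ν : Fin k → ℕ), 0 < k →
      (∀ j, 1 ≤ a j) → ∀ ε : ℝ, 0 < ε → ∃ K : ℕ, ∀ N : ℕ, K ≤ N → N ∉ E → ∀ Q : ℕ, K * Q ≤ N →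
        (∀ Y : ℕ → ℕ → ℕ, (∀ q c, Y q c ≤ N) →
          ∑ q ∈ Icc 1 Q, ∑ c ∈ range q, ‖classSum g a b (fun j => f (ν j)) q c (Y q c)‖ ≤ ε * (Q * N)) ∧
        (∀ M : Finset ℕ, (∀ q ∈ M, 1 ≤ q ∧ q ≤ Q) → (∀ q ∈ M, ∀ q' ∈ M, q ≠ q' → Nat.Coprime q q') →
          (∀ q ∈ M, ∃ Y : ℕ → ℕ, (∀ c, Y c ≤ N) ∧
            ε * N < ∑ c ∈ range q, ‖classSum g a b (fun j => f (ν j)) q c (Y c)‖) →
          (#M : ℝ) ≤ K * (1 + (Q : ℝ) ^ 2 / N)) := by
  simp only [classSum_eq]
  exact Pool.Agent.Run7.h17.Os.osc_main g (osc_few g hg) f hf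

end Pool.Agent.Results.MP_a14ce1_nt.TwistedLargeModuli
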